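import Pool.Agent.helper80.SG.Spec2

set_option autoImplicit false
set_option linter.unusedSectionVars false

namespace Pool.Agent.SG

open MvPolynomial Module Pool.Agent.SV

lemma HS2_next {C : Type} [DecidableEq C] (A : Finset C) (hA : 2 ≤ A.card) :
    ∃ nxt : C → C, (∀ c ∈ A, nxt c ∈ A ∧ nxt c ≠ c) ∧
      ∀ c ∈ A, ∀ c' ∈ A, nxt c = nxt c' → c = c' := by
  obtain ⟨k, hk⟩ : ∃ k, A.card = k + 2 := ⟨A.card - 2, by omega⟩
  let e : A ≃ Fin (k + 2) := A.equivFinOfCardEq hk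
  refine ⟨fun c => if h : c ∈ A then (e.symm (e ⟨c, h⟩ + 1) : A) else c, ?_, ?_⟩
  · intro c hc
    simp only [dif_pos hc]
    refine ⟨(e.symm (e ⟨c, hc⟩ + 1)).2, ?_⟩
    intro h
    have h1 : e.symm (e ⟨c, hc⟩ + 1) = ⟨c, hc⟩ := Subtype.ext h
    have h2 : e ⟨c, hc⟩ + 1 = e ⟨c, hc⟩ := by
      have := congrArg e h1
      rwa [Equiv.apply_symm_apply] at this
    have h3 : (1 : Fin (k + 2)) = 0 := by
      have := add_eq_left.mp h2
      exact this
    exact one_ne_zero h3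
  · intro c hc c' hc' h
    simp only [dif_pos hc, dif_pos hc'] at h
    have h1 := e.symm.injective (Subtype.ext h)
    have h2 := e.injective (add_right_cancel h1)
    exact congrArg Subtype.val h2

lemma HS2_half {C : Type} [Fintype C] [DecidableEq C] (A : Finset C) (hA : 2 ≤ A.card)
    (g p : ℕ) (src : Fin g → C) (hs : ∀ γ, src γ ∈ A)
    (hp : ∀ v, (Finset.univ.filter (fun γ => src γ = v)).card ≤ p) :
    ∃ host : Fin g → C, (∀ γ, host γ ∈ A ∧ host γ ≠ src γ) ∧
      ∀ v, (Finset.univ.filter (fun γ => host γ = v)).card ≤ if v ∈ A then p else 0 := by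
  obtain ⟨nxt, h1, h2⟩ := HS2_next A hA
  refine ⟨fun γ => nxt (src γ), fun γ => h1 _ (hs γ), ?_⟩
  intro v
  split_ifs with hv
  · by_cases hne : (Finset.univ.filter (fun γ => nxt (src γ) = v)).Nonempty
    · obtain ⟨γ0, hγ0⟩ := hne
      rw [Finset.mem_filter] at hγ0
      refine (Finset.card_le_card ?_).trans (hp (src γ0))
      intro γ hγ
      rw [Finset.mem_filter] at hγ ⊢
      exact ⟨Finset.mem_univ _, h2 _ (hs γ) _ (hs γ0) (hγ.2.trans hγ0.2.symm)⟩
    · rw [Finset.not_nonempty_iff_eq_empty.mp hne, Finset.card_empty]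
      exact Nat.zero_le _
  · rw [Nat.le_zero, Finset.card_eq_zero, Finset.filter_eq_empty_iff]
    intro γ _ h
    exact hv (h ▸ (h1 _ (hs γ)).1)

theorem HS2 : HS2_stmt := by
  intro C _ _ A hA g p q src tgt hs ht hp hq
  rcases hA with hA | hA
  · obtain ⟨host, h1, h2⟩ := HS2_half A hA g p src hs hp
    refine ⟨host, fun γ => ⟨(h1 γ).2, ?_⟩, Or.inl h2⟩
    intro h
    exact ht γ (h ▸ (h1 γ).1)
  · obtain ⟨host, h1, h2⟩ := HS2_half Aᶜ hA g q tgt (fun γ => Finset.mem_compl.mpr (ht γ)) hq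
    refine ⟨host, fun γ => ⟨?_, (h1 γ).2⟩, Or.inr ?_⟩
    · intro h
      exact Finset.mem_compl.mp (h1 γ).1 (h ▸ hs γ)
    · intro v
      have := h2 v
      by_cases hv : v ∈ A
      · rw [if_pos hv]; rwa [if_neg (by simpa using hv)] at this
      · rw [if_neg hv]; rwa [if_pos (by simpa using hv)] at this

end Pool.Agent.SG
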